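import Mathlib
import Pool.Agent.W745.Fib.Stm

/-!
# Project FM: boundedness of the sums above the dimension
-/

set_option autoImplicit false

open scoped ENNReal NNReal

namespace Pool.Agent.W540.FM

open Pool.Agent.W745.Fib

/-- **BO.** -/
theorem bo (hK : SK) (hRf : SRf) (hFn : SFn) (hCv : SCv) : SBo := by
  intro lam hlam s hs
  have hlam0 : lam ≠ 0 := hlam.ne'
  obtain ⟨C1, hC1⟩ := hK lam hlam0 s s.2
  obtain ⟨C2, hC2⟩ := hRf lam hlam0 s s.2
  set ε : ℝ := 1 / ((C1 : ℝ) * (1 + C2) + 1) with hε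
  have hD : (0 : ℝ) < (C1 : ℝ) * (1 + C2) + 1 := by positivity
  have hε0 : 0 < ε := by positivity
  obtain ⟨N, k, u, v, hkuv, hsum, n0, hn0⟩ := hCv lam hlam s hs ε hε0
  set M : ℕ := n0 + ∑ i, k i + 3 with hM
  have hkM : ∀ i, k i + 3 ≤ M := by
    intro i
    have := Finset.single_le_sum (f := k) (fun j _ => Nat.zero_le _) (Finset.mem_univ i)
    omega
  set w : Fin N → ℝ≥0∞ := fun i => ENNReal.ofReal (|dE lam (k i) (u i)| ^ (-(s : ℝ))) with hw
  have hwsum : ∑ i, w i ≤ ENNReal.ofReal ε := by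
    rw [hw, ← ENNReal.ofReal_sum_of_nonneg (fun i _ => by positivity)]
    exact ENNReal.ofReal_le_ofReal hsum
  have hconst : (C1 : ℝ≥0∞) * ENNReal.ofReal ε * (1 + C2) ≤ 1 := by
    have e1 : (C1 : ℝ≥0∞) = ENNReal.ofReal (C1 : ℝ) := (ENNReal.ofReal_coe_nnreal).symm
    have e2 : (1 + (C2 : ℝ≥0∞)) = ENNReal.ofReal (1 + (C2 : ℝ)) := by
      rw [ENNReal.ofReal_add zero_le_one (NNReal.coe_nonneg C2), ENNReal.ofReal_one, ENNReal.ofReal_coe_nnreal]
    rw [e1, e2, ← ENNReal.ofReal_mul (NNReal.coe_nonneg C1), ← ENNReal.ofReal_mul (by positivity),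
      ← ENNReal.ofReal_one]
    refine ENNReal.ofReal_le_ofReal ?_
    rw [hε, mul_one_div, div_mul_eq_mul_div, div_le_one hD]
    linarith
  set B : ℝ≥0∞ := ∑ j ∈ Finset.range M, (if 1 ≤ j then Q s j lam else 0) with hB
  have hBtop : B ≠ ⊤ := by
    rw [hB]
    refine (ENNReal.sum_lt_top.mpr fun j _ => ?_).ne
    split_ifs with h
    · exact (hFn lam hlam0 s j h).lt_top
    · exact ENNReal.zero_lt_top
  have hsmall : ∀ j, 1 ≤ j → j < M → Q s j lam ≤ B := by
    intro j h1 h2
    have h3 := Finset.single_le_sum (f := fun j => if 1 ≤ j then Q s j lam else 0)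
      (fun _ _ => zero_le) (Finset.mem_range.mpr h2)
    simpa [h1] using h3
  have hall : ∀ n, 1 ≤ n → Q s n lam ≤ B := by
    intro n
    induction n using Nat.strong_induction_on with
    | _ n ih =>
      intro hn1
      rcases Nat.lt_or_ge n M with h | h
      · exact hsmall n hn1 h
      · have hcov : {E : ℝ | tr lam n E = 1} ⊆
            ⋃ i : Fin N, {E : ℝ | E ∈ Set.Icc (u i) (v i) ∧ tr lam n E = 1} := by
          intro E hE
          obtain ⟨i, hi⟩ := hn0 n (by omega) E hE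
          exact Set.mem_iUnion.mpr ⟨i, hi, hE⟩
        have h1 : Q s n lam ≤ ∑ i : Fin N,
            ∑' g : {E : ℝ | E ∈ Set.Icc (u i) (v i) ∧ tr lam n E = 1},
              ENNReal.ofReal (|dE lam n g| ^ (-(s : ℝ))) := by
          refine (ENNReal.tsum_mono_subtype
            (fun E : ℝ => ENNReal.ofReal (|dE lam n E| ^ (-(s : ℝ)))) hcov).trans ?_
          exact ENNReal.tsum_iUnion_le
            (fun E : ℝ => ENNReal.ofReal (|dE lam n E| ^ (-(s : ℝ)))) _
        refine h1.trans ?_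
        have h2 : ∀ i ∈ (Finset.univ : Finset (Fin N)),
            ∑' g : {E : ℝ | E ∈ Set.Icc (u i) (v i) ∧ tr lam n E = 1},
              ENNReal.ofReal (|dE lam n g| ^ (-(s : ℝ))) ≤
            (C1 : ℝ≥0∞) * w i * ((1 + C2) * B) := by
          intro i _
          have hki := hkM i
          obtain ⟨m, hm⟩ : ∃ m, n = k i + m := ⟨n - k i, by omega⟩
          have hk6 := (hkuv i).1
          have h3 := hC1 (k i) m hk6 (by omega) (u i) (v i) (hkuv i).2.1 (hkuv i).2.2
          rw [hm]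
          refine h3.trans ?_
          refine mul_le_mul_right ?_ _
          have h4 : Q s m lam ≤ B := ih m (by omega) (by omega)
          have h5 : Q s m (-lam) ≤ C2 * B :=
            (hC2 m (by omega)).trans (mul_le_mul_right h4 _)
          calc Q s m lam + Q s m (-lam) ≤ B + C2 * B := add_le_add h4 h5
            _ = (1 + C2) * B := by ring
        refine (Finset.sum_le_sum h2).trans ?_
        calc ∑ i, (C1 : ℝ≥0∞) * w i * ((1 + C2) * B)
            = (C1 : ℝ≥0∞) * (∑ i, w i) * ((1 + C2) * B) := by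
              rw [← Finset.sum_mul, ← Finset.mul_sum]
          _ ≤ (C1 : ℝ≥0∞) * ENNReal.ofReal ε * ((1 + C2) * B) := by gcongr
          _ = ((C1 : ℝ≥0∞) * ENNReal.ofReal ε * (1 + C2)) * B := by ring
          _ ≤ 1 * B := by gcongr
          _ = B := one_mul B
  refine ⟨B.toNNReal, fun n hn => ?_⟩
  rw [ENNReal.coe_toNNReal hBtop]
  exact hall n hn

end Pool.Agent.W540.FM
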